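import Pool.Agent.W500.CS.Stm

/-!
CQ-OPEN: near a point of differentiability the index is constant.
-/

set_option autoImplicit false

open MeasureTheory Metric Set Filter Topology

namespace Pool.Agent.W563.CQ.OPEN

open Pool.Agent.W500.CS

/-- the gradient inequality -/
theorem grad_ineq {V : ℂ → ℝ} {s : Set ℂ} (hs : ConvexOn ℝ s V) {y z : ℂ} (hy : y ∈ s)
    (hz : z ∈ s) {V' : ℂ →L[ℝ] ℝ} (h : HasFDerivAt V V' y) : V y + V' (z - y) ≤ V z := by
  have h1 : HasDerivAt (fun t : ℝ => V (y + t • (z - y))) (V' (z - y)) 0 := by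
    have h2 : HasDerivAt (fun t : ℝ => y + t • (z - y)) (z - y) 0 := by
      have := ((hasDerivAt_id (0 : ℝ)).smul_const (z - y)).const_add y
      simpa using this
    have h3 : HasFDerivAt V V' (y + (0 : ℝ) • (z - y)) := by simpa using h
    exact h3.comp_hasDerivAt (0 : ℝ) h2
  have h4 := (hasDerivWithinAt_iff_tendsto_slope' (s := Ioi (0 : ℝ)) (by simp)).1
    (h1.hasDerivWithinAt (s := Ioi (0 : ℝ)))
  have h5 : V' (z - y) ≤ V z - V y := by
    refine le_of_tendsto h4 ?_
    have h6 : Ioo (0 : ℝ) 1 ∈ 𝓝[>] (0 : ℝ) := Ioo_mem_nhdsGT one_pos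
    filter_upwards [h6] with t ht
    rw [slope_def_field]
    have h7 := hs.2 hy hz (sub_nonneg.2 ht.2.le) ht.1.le (by ring)
    have e1 : (1 - t) • y + t • z = y + t • (z - y) := by
      rw [sub_smul, one_smul, smul_sub]
      abel
    rw [e1, smul_eq_mul, smul_eq_mul] at h7
    have e2 : y + (0 : ℝ) • (z - y) = y := by simp
    simp only [e2, sub_zero]
    rw [div_le_iff₀ ht.1]
    linarith
  linarith

theorem gr_inj {w w' : ℂ} (h : gr w = gr w') : w = w' := by
  have h1 := congrArg (fun l : ℂ →L[ℝ] ℝ => l 1) h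
  have h2 := congrArg (fun l : ℂ →L[ℝ] ℝ => l Complex.I) h
  simp only [gr_apply, mul_one] at h1
  simp only [gr_apply, Complex.mul_re, Complex.I_re, Complex.I_im, mul_zero, mul_one, zero_sub,
    neg_inj] at h2
  exact Complex.ext h1 h2

theorem norm_sq_fderiv (C : ℝ) (y : ℂ) :
    HasFDerivAt (fun z : ℂ => C * ‖z‖ ^ 2) (C • (2 • innerSL ℝ y)) y :=
  ((hasStrictFDerivAt_norm_sq y).hasFDerivAt).const_mul C

/-- a limit of gradients at a point of differentiability is the gradient -/
theorem key {r : ℕ} {W : Set ℂ} {U : ℂ → ℝ} {B : Fin r → ℂ → ℂ} (hD : Dat W U B) {x : ℂ}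
    (hx : x ∈ W) {l : ℂ →L[ℝ] ℝ} (hl : HasFDerivAt U l x) (j : Fin r)
    (hj : ∃ᶠ y in 𝓝 x, HasFDerivAt U (gr (B j y)) y) : l = gr (B j x) := by
  obtain ⟨ε, hε, C, hsub, hconv⟩ := hD.sc x hx
  have hball : ball x ε ∈ 𝓝 x := ball_mem_nhds x hε
  have hBc : ContinuousAt (B j) x :=
    ((hD.hol j).differentiableAt (hD.op.mem_nhds hx)).continuousAt
  have hUc : ContinuousAt U x := hl.continuousAt
  have hineq : ∀ z ∈ ball x ε, (U x + C * ‖x‖ ^ 2)
      + ((B j x * (z - x)).re + C * (2 * inner ℝ x (z - x))) ≤ U z + C * ‖z‖ ^ 2 := by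
    intro z hz
    by_contra hcon
    push Not at hcon
    have hcont : ContinuousAt (fun y => (U y + C * ‖y‖ ^ 2)
      + ((B j y * (z - y)).re + C * (2 * inner ℝ y (z - y)))) x := by
      refine ContinuousAt.add (hUc.add (by fun_prop)) (ContinuousAt.add ?_ ?_)
      · exact Complex.continuous_re.continuousAt.comp (hBc.mul (by fun_prop))
      · have h1 : Continuous (fun y : ℂ => C * (2 * inner ℝ y (z - y))) := by
          have : Continuous (fun y : ℂ => inner ℝ y (z - y)) :=
            continuous_id.inner (continuous_const.sub continuous_id)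
          exact continuous_const.mul (continuous_const.mul this)
        exact h1.continuousAt
    have hev := hcont.eventually_const_lt hcon
    obtain ⟨y, hy, hy1, hy2⟩ := (hj.and_eventually (hev.and hball)).exists
    have hV : HasFDerivAt (fun y => U y + C * ‖y‖ ^ 2)
        (gr (B j y) + C • (2 • innerSL ℝ y)) y := hy.add (norm_sq_fderiv C y)
    have h2 := grad_ineq hconv hy2 hz hV
    simp only [add_apply, smul_apply, gr_apply,
      innerSL_apply_apply, smul_eq_mul, nsmul_eq_mul, Nat.cast_ofNat] at h2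
    linarith
  have hmin : IsLocalMin (fun z => U z + C * ‖z‖ ^ 2
      - (gr (B j x) z + C * (2 * innerSL ℝ x z))) x := by
    filter_upwards [hball] with z hz
    have h1 := hineq z hz
    have e1 : (B j x * (z - x)).re = gr (B j x) z - gr (B j x) x := by
      rw [← gr_apply, map_sub]
    have e2 : inner ℝ x (z - x) = innerSL ℝ x z - innerSL ℝ x x := by
      rw [inner_sub_right]
      rfl
    rw [e1, e2] at h1
    linarith
  have hder : HasFDerivAt (fun z => U z + C * ‖z‖ ^ 2
      - (gr (B j x) z + C * (2 * innerSL ℝ x z)))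
      (l + C • (2 • innerSL ℝ x) - (gr (B j x) + C • ((2 : ℝ) • innerSL ℝ x))) x := by
    refine (hl.add (norm_sq_fderiv C x)).sub ((gr (B j x)).hasFDerivAt.add ?_)
    exact (((innerSL ℝ x).hasFDerivAt (x := x)).const_mul 2).const_mul C
  have h0 := hmin.hasFDerivAt_eq_zero hder
  ext v
  have h3 := congrArg (fun L : ℂ →L[ℝ] ℝ => L v) h0
  simp only [add_apply, sub_apply,
    smul_apply, zero_apply, smul_eq_mul, nsmul_eq_mul,
    Nat.cast_ofNat] at h3
  linarith

/-- CQ-OPEN -/
theorem main : S_NBR → S_OPEN := by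
  intro hN r W U B hD x hx hdiff
  obtain ⟨l, hl⟩ := hdiff
  have hfreq : ∃ᶠ y in 𝓝 x, ∃ i, HasFDerivAt U (gr (B i y)) y := by
    have h1 := Measure.dense_of_ae hD.ae
    have h2 : ∃ᶠ y in 𝓝 x, y ∈ W → ∃ i, HasFDerivAt U (gr (B i y)) y :=
      mem_closure_iff_frequently.1 (h1 x)
    exact (h2.and_eventually (hD.op.mem_nhds hx)).mono fun y hy => hy.1 hy.2
  have hex : ∃ i, ∃ᶠ y in 𝓝 x, HasFDerivAt U (gr (B i y)) y := by
    by_contra hcon
    push Not at hcon
    apply hfreq
    have h1 : ∀ i, ∀ᶠ y in 𝓝 x, ¬ HasFDerivAt U (gr (B i y)) y := fun i => hcon i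
    filter_upwards [eventually_all.2 h1] with y hy
    rintro ⟨i, hi⟩
    exact hy i hi
  obtain ⟨i, hi⟩ := hex
  have hli := key hD hx hl i hi
  refine ⟨i, hN r W U B hD x hx i ?_⟩
  have h1 : ∀ j, ∀ᶠ y in 𝓝 x, HasFDerivAt U (gr (B j y)) y → j = i := by
    intro j
    by_cases hji : j = i
    · exact Eventually.of_forall fun _ _ => hji
    · have h2 : ¬ ∃ᶠ y in 𝓝 x, HasFDerivAt U (gr (B j y)) y := by
        intro hf
        have h3 := key hD hx hl j hf
        exact hD.ne j i hji x hx (gr_inj (h3.symm.trans hli))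
      rw [not_frequently] at h2
      exact h2.mono fun y hy h4 => absurd h4 hy
  exact eventually_all.2 h1

end Pool.Agent.W563.CQ.OPEN
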